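import Pool.Agent.Lib.MP_ec2323_pr.Final

/-!
# MP_ec2323_pr: the product condition does not imply cutoff from a typical start

The graphs are Hamming graphs `H(d, q)` with one extra vertex joined to all others. The walk
visits that vertex at rate `1 / (D + 1)`, where `D = d (q - 1)`, and jumps from it to a uniform
vertex of the Hamming graph. Its relaxation time is at most `(D + 1) / (q + 1)`, while
`d_x(c (D + 1))` is close to `exp (-c)` for bounded `c`.
-/

set_option autoImplicit false

open Filter Topology

namespace Pool.Agent.Results.MP_ec2323_pr.NoCutoff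

open Pool.Agent.MP_ec2323_pr

/-- There is a sequence of finite connected simple graphs with number of vertices tending to
infinity such that, whichever medians `τ n` of the mixing times from a stationary vertex are
chosen (and medians exist), `τ n` divided by the relaxation time tends to infinity, yet the
continuous-time simple random walks do not have a total variation cutoff from a stationary
start. -/
theorem result :
    ∃ (V : ℕ → Type) (_ : ∀ n, Fintype (V n)) (_ : ∀ n, DecidableEq (V n))
      (G : ∀ n, SimpleGraph (V n)) (_ : ∀ n, DecidableRel (G n).Adj),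
      (∀ n, (G n).Connected) ∧
      Tendsto (fun n => Fintype.card (V n)) atTop atTop ∧
      (∀ n, ∃ m, IsMedianMixTime (G n) m) ∧
      ∀ τ : ℕ → ℝ, (∀ n, IsMedianMixTime (G n) (τ n)) →
        Tendsto (fun n => τ n / relaxTime (G n)) atTop atTop ∧
        ¬ HasTypicalCutoff V G τ := by
  refine ⟨VV, fun n => inferInstance, fun n => inferInstance, GG, fun n => inferInstance,
    fun n => cone_connected, card_tendsto, fun n => exists_median _ (sum_stat n), ?_⟩
  intro τ hτ
  constructor
  · refine tendsto_atTop_mono (f := fun n : ℕ => (n : ℝ)) (fun n => ?_)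
      tendsto_natCast_atTop_atTop
    have hd : 1 ≤ dd n := by have := dd_ge n; omega
    have h1 := (median_bounds n (hτ n)).1
    have h2 := relaxTime_le hd (qq_pos n)
    have h3 := relaxTime_pos hd (qq_pos n)
    have hD := DD_ge n
    rw [le_div_iff₀ h3]
    have hq : ((qq n : ℕ) : ℝ) = n + 2 := by unfold qq; push_cast; ring
    rw [hq] at h2
    have h4 : (n : ℝ) * relaxTime (GG n) ≤ n * ((DD (dd n) (qq n) + 1) / ((n : ℝ) + 2 + 1)) := by
      gcongr
    have h5 : (n : ℝ) * ((DD (dd n) (qq n) + 1) / ((n : ℝ) + 2 + 1)) ≤ DD (dd n) (qq n) + 1 := by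
      rw [mul_div_assoc', div_le_iff₀ (by positivity)]
      have : (0 : ℝ) ≤ n := by positivity
      nlinarith
    linarith
  · intro hcut
    have h1 := (hcut (1 / 8) (by norm_num) (by norm_num)).2
    have h2 : ∀ n, statMass (GG n) {x | tvDist (GG n) x ((1 + 1 / 8) * τ n) < 1 / 8} ≤ 1 / 66 := by
      intro n
      refine statMass_le_of_no_some n ?_
      intro x hx
      simp only [Set.mem_ofPred_eq] at hx
      obtain ⟨h3, h4⟩ := median_bounds n (hτ n)
      have hD := DD_ge n
      have h5 : 0 ≤ (1 + 1 / 8) * τ n := by
        have : 0 ≤ τ n := by linarith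
        positivity
      have h6 : (1 + 1 / 8) * τ n / (DD (dd n) (qq n) + 1) ≤ 27 / 16 := by
        rw [div_le_iff₀ (by positivity)]
        linarith
      have h7 := tv_ge_late n x h5 (by linarith)
      have h8 : Real.exp (-(7 / 4)) ≤ Real.exp (-((1 + 1 / 8) * τ n / (DD (dd n) (qq n) + 1))) := by
        apply Real.exp_le_exp.2; linarith
      have h9 : (1 / 7 : ℝ) ≤ Real.exp (-(7 / 4)) := by
        rw [Real.exp_neg]
        have h10 : Real.exp (7 / 4) ≤ 7 := by
          have h11 : Real.exp (7 / 4) ^ 4 = Real.exp 1 ^ 7 := by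
            rw [← Real.exp_nat_mul, ← Real.exp_nat_mul]; norm_num
          have h12 : Real.exp 1 ≤ 3 := by have := Real.exp_one_lt_d9; linarith
          have h13 : Real.exp (7 / 4) ^ 4 ≤ 7 ^ 4 := by
            rw [h11]
            calc Real.exp 1 ^ 7 ≤ 3 ^ 7 := by gcongr
              _ ≤ 7 ^ 4 := by norm_num
          exact le_of_pow_le_pow_left₀ (by norm_num) (by norm_num) h13
        calc (1 / 7 : ℝ) = (7 : ℝ)⁻¹ := by norm_num
          _ ≤ (Real.exp (7 / 4))⁻¹ := by gcongr
      have h10 : (1 / 7 : ℝ) * (49 / 50) < 1 / 8 := by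
        calc (1 / 7 : ℝ) * (49 / 50)
            ≤ Real.exp (-((1 + 1 / 8) * τ n / (DD (dd n) (qq n) + 1))) * (49 / 50) := by
              apply mul_le_mul_of_nonneg_right _ (by norm_num); linarith
          _ < 1 / 8 := lt_of_le_of_lt h7 hx
      norm_num at h10
    have h3 := le_of_tendsto' h1 h2
    norm_num at h3

end Pool.Agent.Results.MP_ec2323_pr.NoCutoff
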